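import Pool.Agent.J6H76.TB.One

/-!
# Coverings by transversal blocks: growth in `k` when `n - k` is fixed

`T_q(n, k, r)` is the least size of a set of transversal blocks of `F_q ^ n` such that every admissible
`r`-dimensional subspace is contained in one of them; in the matrix form of the problem file, the least
size of a set `M` of `k × (n - k)` matrices such that for every `r × k` matrix `B` of rank `r` and every
`r × (n - k)` matrix `C` some `A ∈ M` satisfies `B * A = C`. Counting gives `q ^ (r (n - k))` as a lower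
bound, and `M` = all matrices gives the upper bound `q ^ (k (n - k))`.

We prove, for `1 ≤ r ≤ k < n` and every prime power `q`,

* `T_q(n, k, r) ≥ q ^ ((r - 1) (n - k)) * ((q - 1) (k - r + 1) + q ^ (n - k - 1))`;
* `T_q(n, k, r) ≤ q ^ (r (n - k)) * r * n * log q + 1`;
* `T_q(n, k, 1) ≤ ⌈k / (n - k)⌉ (q ^ (n - k) - 1) + 1`;
* `T_q(k + 1, k, 1) = k (q - 1) + 1`.

So for fixed `q`, `r` and `n - k` the number `T_q(n, k, r)` grows linearly in `k`, and for `n = k + 1`,
`r = 1` it is determined.

Proof of the lower bound: the matrices of `M` whose first `r - 1` rows are given solve the problem for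
`k - r + 1` and one row; for one row, delete `q ^ (n - k - 1) - 1` matrices: the first columns of the
remaining ones still meet every affine hyperplane of `F_q ^ (k - r + 1)`, and the theorem of Jamison and of
Brouwer and Schrijver on such sets of points applies. The upper bound for `r = 1` is given by the blocks of
`n - k` rows which are multiplications by the elements of the field with `q ^ (n - k)` elements; the general
one is a union bound.
-/

set_option autoImplicit false

namespace Pool.Agent.Results.MP_5f4cd2_co.LinearGrowth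

/-- For every `r × k` matrix `B` of rank `r` and every `r × m` matrix `C` over the field `F`, some
element `A` of the set `M` of `k × m` matrices satisfies `B * A = C`. -/
def Covers {F : Type} [Field F] {k m : ℕ} (r : ℕ) (M : Finset (Matrix (Fin k) (Fin m) F)) : Prop :=
  ∀ B : Matrix (Fin r) (Fin k) F, B.rank = r → ∀ C : Matrix (Fin r) (Fin m) F, ∃ A ∈ M, B * A = C

/-- The number `T_q(n, k, r)`, for the field `F` with `q` elements: the least size of a set `M` of
`k × (n - k)` matrices with `Covers r M`. -/
noncomputable def T (F : Type) [Field F] (n k r : ℕ) : ℕ :=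
  sInf {N : ℕ | ∃ M : Finset (Matrix (Fin k) (Fin (n - k)) F), Covers r M ∧ M.card = N}

/-- **Growth of the covering number in `k`, and its value for `n = k + 1`, `r = 1`.** -/
theorem result (F : Type) [Field F] [Fintype F] (n k r : ℕ) (hr : 1 ≤ r) (hrk : r ≤ k)
    (hkn : k < n) :
    Fintype.card F ^ ((r - 1) * (n - k)) *
        ((Fintype.card F - 1) * (k - r + 1) + Fintype.card F ^ (n - k - 1)) ≤ T F n k r ∧
    (T F n k r : ℝ) ≤
      (Fintype.card F : ℝ) ^ (r * (n - k)) * (r * n) * Real.log (Fintype.card F) + 1 ∧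
    T F n k 1 ≤ (n - 1) / (n - k) * (Fintype.card F ^ (n - k) - 1) + 1 ∧
    T F (k + 1) k 1 = k * (Fintype.card F - 1) + 1 := by
  have low : ∀ n s k : ℕ, s < k → k < n → Fintype.card F ^ (s * (n - k)) *
      ((Fintype.card F - 1) * (k - s) + Fintype.card F ^ (n - k - 1)) ≤ T F n k (s + 1) := by
    intro n s k hs hkn
    obtain ⟨M0, hM0, -⟩ := J6H76.TB.upper (F := F) k (n - k) (s + 1)
    obtain ⟨M, hM, hc⟩ := Nat.sInf_mem (s := {N : ℕ | ∃ M : Finset (Matrix (Fin k) (Fin (n - k)) F),
      Covers (s + 1) M ∧ M.card = N}) ⟨_, M0, hM0, rfl⟩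
    have h1 := J6H76.TB.lower (by omega : 1 ≤ n - k) hs M hM
    rw [hc] at h1
    exact h1
  have up1 : ∀ n k : ℕ, 1 ≤ k → k < n →
      T F n k 1 ≤ (n - 1) / (n - k) * (Fintype.card F ^ (n - k) - 1) + 1 := by
    intro n k hk hkn
    obtain ⟨M, hM, hc⟩ := J6H76.TB.one_upper F k (n - k) (by omega)
    have h1 : T F n k 1 ≤ M.card := Nat.sInf_le ⟨M, hM, rfl⟩
    have h2 : k + (n - k) - 1 = n - 1 := by omega
    rw [h2] at hc
    exact h1.trans hc
  refine ⟨?_, ?_, up1 n k (by omega) hkn, ?_⟩
  · obtain ⟨s, rfl⟩ : ∃ s, r = s + 1 := ⟨r - 1, by omega⟩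
    have h1 := low n s k (by omega) hkn
    have h2 : k - (s + 1) + 1 = k - s := by omega
    rw [h2, Nat.add_sub_cancel]
    exact h1
  · obtain ⟨M, hM, hc⟩ := J6H76.TB.upper (F := F) k (n - k) r
    have h1 : T F n k r ≤ M.card := Nat.sInf_le ⟨M, hM, rfl⟩
    have h2 : (T F n k r : ℝ) ≤ (M.card : ℝ) := by exact_mod_cast h1
    have h3 : ((k : ℝ) + ((n - k : ℕ) : ℝ)) = (n : ℝ) := by
      rw [Nat.cast_sub hkn.le]
      ring
    rw [h3] at hc
    exact h2.trans hc
  · have h1 := low (k + 1) 0 k (by omega) (by omega)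
    have h2 := up1 (k + 1) k (by omega) (by omega)
    have h3 : k + 1 - k = 1 := by omega
    simp only [h3, zero_mul, pow_zero, one_mul, Nat.sub_zero, Nat.sub_self, zero_add] at h1
    rw [h3, Nat.add_sub_cancel, Nat.div_one, pow_one] at h2
    rw [mul_comm] at h1
    exact le_antisymm h2 h1

end Pool.Agent.Results.MP_5f4cd2_co.LinearGrowth
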