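import Pool.Agent.J6H76.TB.Ten

/-!
# Coverings of the one-dimensional subspaces by transversal blocks: the rate of growth in `k`

`T_q(n, k, 1)` is the least size of a set of transversal blocks of `F_q ^ n` such that every admissible
one-dimensional subspace is contained in one of them; in the matrix form of the problem file, the least
size of a set `M` of `k × (n - k)` matrices such that for every row `b ≠ 0` of length `k` and every row `c`
of length `n - k` some `A ∈ M` satisfies `b * A = c`.

For every prime power `q` and every `m ≥ 1` the limit `c(q, m)` of `T_q(k + m, k, 1) / k` for `k → ∞`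
exists, `q - 1 ≤ c(q, m) ≤ (q ^ m - 1) / m` (so `c(q, 1) = q - 1`), and `T_q(k + m, k, 1) ≥ c(q, m) k + 1`
for every `k ≥ 1`. For `q = m = 2` the upper bound `3 / 2` is not attained: `c(2, 2) ≤ 9 / 7`.

Proof. If two sets of matrices with the property contain `0` then `(M₁, 0) ∪ (0, M₂)` has the property for
`k₁ + k₂`, so `T - 1` is subadditive in `k`, and the lemma of Fekete applies. The lower bound comes from the
theorem of Jamison and of Brouwer and Schrijver, the upper bound from the multiplications by the elements of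
the field with `q ^ m` elements, and the last one from ten explicit `7 × 2` matrices (`J6H76.TB.ten`).
-/

set_option autoImplicit false

namespace Pool.Agent.Results.MP_5f4cd2_co.OneRowRate

open Filter Topology

/-- For every `r × k` matrix `B` of rank `r` and every `r × m` matrix `C` over the field `F`, some
element `A` of the set `M` of `k × m` matrices satisfies `B * A = C`. -/
def Covers {F : Type} [Field F] {k m : ℕ} (r : ℕ) (M : Finset (Matrix (Fin k) (Fin m) F)) : Prop :=
  ∀ B : Matrix (Fin r) (Fin k) F, B.rank = r → ∀ C : Matrix (Fin r) (Fin m) F, ∃ A ∈ M, B * A = C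

/-- The number `T_q(n, k, r)`, for the field `F` with `q` elements: the least size of a set `M` of
`k × (n - k)` matrices with `Covers r M`. -/
noncomputable def T (F : Type) [Field F] (n k r : ℕ) : ℕ :=
  sInf {N : ℕ | ∃ M : Finset (Matrix (Fin k) (Fin (n - k)) F), Covers r M ∧ M.card = N}

/-- **The rate of growth of `T_q(k + m, k, 1)` in `k`.** -/
theorem result :
    (∀ (F : Type) [Field F] [Fintype F] (m : ℕ), 1 ≤ m → ∃ c : ℝ,
      (Fintype.card F : ℝ) - 1 ≤ c ∧ c ≤ ((Fintype.card F : ℝ) ^ m - 1) / m ∧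
      Tendsto (fun k : ℕ => (T F (k + m) k 1 : ℝ) / k) atTop (𝓝 c) ∧
      ∀ k : ℕ, 1 ≤ k → c * k + 1 ≤ T F (k + m) k 1) ∧
    ∀ c : ℝ, Tendsto (fun k : ℕ => (T (ZMod 2) (k + 2) k 1 : ℝ) / k) atTop (𝓝 c) → c ≤ 9 / 7 := by
  have hT : ∀ (F : Type) [Field F] (m k : ℕ), T F (k + m) k 1 = J6H76.TB.T0 F k m 1 := by
    intro F _ m k
    have h5 : T F (k + m) k 1 = J6H76.TB.T0 F k (k + m - k) 1 := rfl
    rw [h5, Nat.add_sub_cancel_left]
  refine ⟨?_, ?_⟩
  · intro F _ _ m hm
    obtain ⟨c, h1, h2, h3, h4⟩ := J6H76.TB.lim_exists F m hm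
    refine ⟨c, h1, h2, ?_, ?_⟩
    · refine h3.congr fun k => ?_
      rw [hT F m k]
    · intro k hk
      rw [hT F m k]
      exact h4 k hk
  · intro c hc
    obtain ⟨c', -, -, h3, h4⟩ := J6H76.TB.lim_exists (ZMod 2) 2 (by norm_num)
    have h6 : Tendsto (fun k : ℕ => (J6H76.TB.T0 (ZMod 2) k 2 1 : ℝ) / k) atTop (𝓝 c) := by
      refine hc.congr fun k => ?_
      rw [hT (ZMod 2) 2 k]
    have h7 : c = c' := tendsto_nhds_unique h6 h3
    have h8 := h4 7 (by norm_num)
    have h9 : (J6H76.TB.T0 (ZMod 2) 7 2 1 : ℝ) ≤ 10 := by exact_mod_cast J6H76.TB.ten_cov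
    rw [h7]
    push_cast at h8
    linarith

end Pool.Agent.Results.MP_5f4cd2_co.OneRowRate
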